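import Pool.Agent.helper54.UG.Spec

/-!
# Project ug (MP_a2a22c_al), row N2
-/

set_option autoImplicit false

namespace Pool.Agent.UG

open Matrix Pool.Agent.H48SL

theorem N2_entry {X : MQ 2} {v : Fin 2 → ℚ} (h : X *ᵥ v = 0) (i : Fin 2) :
    X i 0 * v 0 + X i 1 * v 1 = 0 := by
  have h1 := congrFun h i
  rw [Matrix.mulVec, dotProduct, Fin.sum_univ_two] at h1
  exact h1

theorem N2 (hCOM : COM_stmt) : N2_stmt := by
  intro 𝔞 hA hS
  obtain ⟨v, hv, hX⟩ := hCOM 2 (by norm_num) 𝔞 hA
  by_cases h0 : v 0 = 0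
  · have h1 : v 1 ≠ 0 := by
      intro h1
      apply hv
      funext i
      fin_cases i
      · exact h0
      · exact h1
    obtain ⟨X, hXa, hX0, hXu⟩ := hS ![1, 0]
    apply hX0
    ext i j
    have e1 := N2_entry hXu i
    have e2 := N2_entry (hX X hXa) i
    simp only [Matrix.cons_val_zero, Matrix.cons_val_one, mul_one, mul_zero, add_zero] at e1
    rw [h0, mul_zero, zero_add] at e2
    have e3 : X i 1 = 0 := (mul_eq_zero.1 e2).resolve_right h1
    fin_cases j
    · exact e1
    · exact e3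
  · obtain ⟨X, hXa, hX0, hXu⟩ := hS ![0, 1]
    apply hX0
    ext i j
    have e1 := N2_entry hXu i
    have e2 := N2_entry (hX X hXa) i
    simp only [Matrix.cons_val_zero, Matrix.cons_val_one, mul_one, mul_zero, zero_add] at e1
    rw [e1, zero_mul, add_zero] at e2
    have e3 : X i 0 = 0 := (mul_eq_zero.1 e2).resolve_right h0
    fin_cases j
    · exact e3
    · exact e1

end Pool.Agent.UG
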